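import Pool.Agent.Helper75.TW.A3

/-!
# The local form of `Helper75.TW.ls_le`: the sum `LS` at the radius `r` is bounded by the twentieth moments of the radii `r' ∈ [r, r + τ]`
-/

open MeasureTheory Real Set Filter Topology

set_option autoImplicit false

namespace Pool.Agent.Helper54.LP

open Pool.Agent.Helper22.AE
open Pool.Agent.Helper92.GC
open Pool.Agent.Helper92.LA (lf Fb HL WL)
open Pool.Agent.Helper22.LP (Fr fv fk fdet nr tr hom LS nr_eq)
open Pool.Agent.Helper75.TW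

/-- the moment over the centres is a continuous function of the radius -/
theorem m20_cont54 (f : Fr) (h : ℝ × ℝ → ℝ) (N : ℕ) :
    Continuous (fun r : ℝ => m20 (sqa N) (fun k => ee (r * h (fk f k)))) := by
  refine m20_cont_coef (sqa N) (fun (r : ℝ) k => ee (r * h (fk f k))) fun k _ => ?_
  exact ee_cont.comp (continuous_id.mul continuous_const)

/-- the local bound -/
theorem ls_loc {M B : ℝ} (hM : 1 ≤ M) : ∃ C : ℝ, 0 < C ∧ ∀ f : Fr, Fb M f → ∀ h : ℝ × ℝ → ℝ, HL B h → ∀ w : ℝ × ℝ → ℂ, WL B w →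
    ∀ i : ℕ, i ≤ 2 → ∀ N : ℕ, 1 ≤ N → ∀ τ : ℝ, 0 < τ → ∀ (r : ℝ) (c : ℝ × ℝ),
      ‖LS f h w i N r c‖ ^ 20 ≤ C * (N : ℝ) ^ 2 * (N + 1 / τ) * ∫ r' in Icc r (r + τ), m20 (sqa N) (fun k => ee (r' * h (fk f k))) := by
  obtain ⟨C, hC, hmul⟩ := ls_mul (M := M) (B := B) hM
  refine ⟨441 * 4 * C ^ 20, by positivity, ?_⟩
  intro f hf h hh w hw i hi N hN τ hτ r c
  have hNr : (1 : ℝ) ≤ N := by exact_mod_cast hN
  have hN0 : (0 : ℝ) < N := by linarith
  obtain ⟨G, hG⟩ : ∃ G : ℝ → ℝ, G = fun r => m20 (sqa N) (fun k => ee (r * h (fk f k))) := ⟨_, rfl⟩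
  have hGc : Continuous G := by
    rw [hG]
    exact m20_cont54 f h N
  have hG0 : ∀ r, 0 ≤ G r := by
    intro r
    rw [hG]
    exact m20_nonneg _ _
  have hcard : ((SP (sqa N) 10).card : ℝ) ≤ 441 * (4 * (N : ℝ) ^ 2) := by
    have h1 := sp10_card (S := sqa N) (X := 2 * N) (Y := 2 * N) (by linarith) (by linarith) (by
      classical
      intro p hp
      unfold sqa at hp
      obtain ⟨-, -, h2, h3⟩ := Finset.mem_filter.1 hp
      constructor
      · exact_mod_cast h2.le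
      · exact_mod_cast h3.le)
    refine h1.trans (le_of_eq ?_)
    ring
  obtain ⟨s, hs⟩ : ∃ s : ℝ, s = min (1 / (N : ℝ)) τ := ⟨_, rfl⟩
  have hs0 : 0 < s := by
    rw [hs]
    exact lt_min (by positivity) hτ
  have hsN : s ≤ 1 / N := by
    rw [hs]
    exact min_le_left _ _
  have hsτ : s ≤ τ := by
    rw [hs]
    exact min_le_right _ _
  -- the bound for each `r'`
  have h1 : ∀ r' ∈ Icc r (r + s), ‖LS f h w i N r c‖ ^ 20 ≤ 441 * (4 * (N : ℝ) ^ 2) * C ^ 20 * G r' := by
    intro r' hr'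
    have hsub : |r - r'| ≤ 1 / N := by
      rw [abs_le]
      constructor
      · linarith [hr'.2]
      · have := hr'.1
        have h2 : 0 ≤ 1 / (N : ℝ) := by positivity
        linarith
    have h2 := (hmul f hf h hh w hw i hi N hN (r - r') hsub).2 (fun k => ee (r' * h (fk f k)))
    have h3 : LS f h w i N r c = tp (sqa N) (fun k => (((N : ℝ) / nr (fk f k) : ℝ) : ℂ) ^ i * w (fk f k) *
        ee ((r - r') * h (fk f k)) * ee (r' * h (fk f k))) c := by
      unfold LS tp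
      refine Finset.sum_congr rfl fun k _ => ?_
      have h4 : ee (r * h (fk f k) + dt k c) = ee ((r - r') * h (fk f k)) * ee (r' * h (fk f k)) * ee (dt k c) := by
        rw [← ee_add, ← ee_add]
        congr 1
        ring
      rw [h4]
      ring
    rw [h3]
    refine (nik20 _ _ _).trans ?_
    have h5 : m20 (sqa N) (fun k => (((N : ℝ) / nr (fk f k) : ℝ) : ℂ) ^ i * w (fk f k) *
        ee ((r - r') * h (fk f k)) * ee (r' * h (fk f k))) ≤ C ^ 20 * G r' := by
      rw [hG]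
      exact h2
    calc ((SP (sqa N) 10).card : ℝ) * m20 (sqa N) (fun k => (((N : ℝ) / nr (fk f k) : ℝ) : ℂ) ^ i * w (fk f k) *
        ee ((r - r') * h (fk f k)) * ee (r' * h (fk f k))) ≤ 441 * (4 * (N : ℝ) ^ 2) * (C ^ 20 * G r') :=
          mul_le_mul hcard h5 (m20_nonneg _ _) (by positivity)
      _ = _ := by ring
  have hsub : Icc r (r + s) ⊆ Icc r (r + τ) := Icc_subset_Icc le_rfl (by linarith)
  have hvol : (volume (Icc r (r + s))).toReal = s := by
    rw [Real.volume_Icc, ENNReal.toReal_ofReal (by linarith)]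
    ring
  have hJ : ∫ r' in Icc r (r + s), G r' ≤ ∫ r' in Icc r (r + τ), G r' := by
    refine setIntegral_mono_set ?_ (Eventually.of_forall hG0) (Eventually.of_forall hsub)
    exact hGc.continuousOn.integrableOn_compact isCompact_Icc
  have hI0 : 0 ≤ ∫ r' in Icc r (r + τ), G r' := integral_nonneg fun _ => hG0 _
  have h6 : ‖LS f h w i N r c‖ ^ 20 * s ≤ 441 * (4 * (N : ℝ) ^ 2) * C ^ 20 * ∫ r' in Icc r (r + s), G r' := by
    have h7 : ∫ _r' in Icc r (r + s), ‖LS f h w i N r c‖ ^ 20 ≤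
        ∫ r' in Icc r (r + s), 441 * (4 * (N : ℝ) ^ 2) * C ^ 20 * G r' := by
      refine setIntegral_mono_on ?_ ?_ measurableSet_Icc h1
      · exact continuousOn_const.integrableOn_compact isCompact_Icc
      · exact (continuous_const.mul hGc).continuousOn.integrableOn_compact isCompact_Icc
    rw [integral_const_mul, setIntegral_const, Measure.real, hvol, smul_eq_mul] at h7
    linarith
  have h8 : ‖LS f h w i N r c‖ ^ 20 * s ≤ 441 * (4 * (N : ℝ) ^ 2) * C ^ 20 * ∫ r' in Icc r (r + τ), G r' :=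
    h6.trans (mul_le_mul_of_nonneg_left hJ (by positivity))
  have hs1 : 1 / s ≤ N + 1 / τ := by
    rw [hs]
    rcases min_choice (1 / (N : ℝ)) τ with h | h <;> rw [h]
    · rw [one_div_one_div]
      have : 0 ≤ 1 / τ := by positivity
      linarith
    · linarith
  have h9 : ∫ r' in Icc r (r + τ), G r' = ∫ r' in Icc r (r + τ), m20 (sqa N) (fun k => ee (r' * h (fk f k))) := by rw [hG]
  rw [← h9]
  calc ‖LS f h w i N r c‖ ^ 20 = ‖LS f h w i N r c‖ ^ 20 * s * (1 / s) := by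
        field_simp
    _ ≤ 441 * (4 * (N : ℝ) ^ 2) * C ^ 20 * (∫ r' in Icc r (r + τ), G r') * (1 / s) := mul_le_mul_of_nonneg_right h8 (by positivity)
    _ ≤ 441 * (4 * (N : ℝ) ^ 2) * C ^ 20 * (∫ r' in Icc r (r + τ), G r') * (N + 1 / τ) := mul_le_mul_of_nonneg_left hs1 (by positivity)
    _ = 441 * 4 * C ^ 20 * (N : ℝ) ^ 2 * (N + 1 / τ) * ∫ r' in Icc r (r + τ), G r' := by ring

/-- the local bound for all radii of a window -/
theorem ls_win {M B : ℝ} (hM : 1 ≤ M) : ∃ C : ℝ, 0 < C ∧ ∀ f : Fr, Fb M f → ∀ h : ℝ × ℝ → ℝ, HL B h → ∀ w : ℝ × ℝ → ℂ, WL B w →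
    ∀ i : ℕ, i ≤ 2 → ∀ N : ℕ, 1 ≤ N → ∀ τ : ℝ, 0 < τ → ∀ r₀ r : ℝ, |r - r₀| ≤ τ → ∀ c : ℝ × ℝ,
      ‖LS f h w i N r c‖ ^ 20 ≤ C * (N : ℝ) ^ 2 * (N + 1 / τ) *
        ∫ r' in Icc (r₀ - 2 * τ) (r₀ + 2 * τ), m20 (sqa N) (fun k => ee (r' * h (fk f k))) := by
  obtain ⟨C, hC, hl⟩ := ls_loc (M := M) (B := B) hM
  refine ⟨C, hC, fun f hf h hh w hw i hi N hN τ hτ r₀ r hr c => ?_⟩
  refine (hl f hf h hh w hw i hi N hN τ hτ r c).trans ?_
  refine mul_le_mul_of_nonneg_left ?_ (by positivity)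
  have hr' := abs_le.1 hr
  refine setIntegral_mono_set ?_ (Eventually.of_forall fun _ => m20_nonneg _ _)
    (Eventually.of_forall (Icc_subset_Icc (by linarith) (by linarith)))
  exact (m20_cont54 f h N).continuousOn.integrableOn_compact isCompact_Icc

/-- the mean over the windows -/
theorem win_int {G : ℝ → ℝ} (hG : Continuous G) (h0 : ∀ r, 0 ≤ G r) {a b τ : ℝ} (hab : a ≤ b) (hτ : 0 ≤ τ) :
    Continuous (fun r₀ : ℝ => ∫ r' in Icc (r₀ - τ) (r₀ + τ), G r') ∧
    ∫ r₀ in Icc a b, (∫ r' in Icc (r₀ - τ) (r₀ + τ), G r') ≤ 2 * τ * ∫ r' in Icc (a - τ) (b + τ), G r' := by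
  have e1 : ∀ r₀ : ℝ, ∫ r' in Icc (r₀ - τ) (r₀ + τ), G r' = ∫ s in (-τ)..τ, G (s + r₀) := by
    intro r₀
    rw [integral_Icc_eq_integral_Ioc, ← intervalIntegral.integral_of_le (by linarith), intervalIntegral.integral_comp_add_right]
    congr 1 <;> ring
  have hc2 : Continuous (fun p : ℝ × ℝ => G (p.2 + p.1)) := hG.comp (continuous_snd.add continuous_fst)
  constructor
  · simp only [e1]
    exact intervalIntegral.continuous_parametric_intervalIntegral_of_continuous' (f := fun r₀ s => G (s + r₀)) hc2 (-τ) τ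
  · simp only [e1]
    have e2 : ∫ r₀ in Icc a b, (∫ s in (-τ)..τ, G (s + r₀)) = ∫ s in (-τ)..τ, (∫ r₀ in a..b, G (s + r₀)) := by
      have e4 : ∀ r₀ : ℝ, ∫ s in (-τ)..τ, G (s + r₀) = ∫ s in Icc (-τ) τ, G (s + r₀) := fun r₀ => by
        rw [intervalIntegral.integral_of_le (by linarith), ← integral_Icc_eq_integral_Ioc]
      have e5 : ∀ s : ℝ, ∫ r₀ in a..b, G (s + r₀) = ∫ r₀ in Icc a b, G (s + r₀) := fun s => by
        rw [intervalIntegral.integral_of_le hab, ← integral_Icc_eq_integral_Ioc]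
      simp only [e4, e5]
      rw [intervalIntegral.integral_of_le (by linarith), ← integral_Icc_eq_integral_Ioc]
      refine integral_integral_swap (f := fun r₀ s => G (s + r₀)) ?_
      rw [Measure.prod_restrict]
      exact hc2.continuousOn.integrableOn_compact (isCompact_Icc.prod isCompact_Icc)
    rw [e2]
    have e3 : ∀ s ∈ Icc (-τ) τ, ∫ r₀ in a..b, G (s + r₀) ≤ ∫ r' in Icc (a - τ) (b + τ), G r' := by
      intro s hs
      rw [intervalIntegral.integral_comp_add_left, intervalIntegral.integral_of_le (by linarith), ← integral_Icc_eq_integral_Ioc]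
      refine setIntegral_mono_set (hG.continuousOn.integrableOn_compact isCompact_Icc) (Eventually.of_forall h0)
        (Eventually.of_forall (Icc_subset_Icc (by linarith [hs.1]) (by linarith [hs.2])))
    have hc3 : Continuous (fun s : ℝ => ∫ r₀ in a..b, G (s + r₀)) :=
      intervalIntegral.continuous_parametric_intervalIntegral_of_continuous' (f := fun s r₀ => G (s + r₀))
        (hG.comp (continuous_fst.add continuous_snd)) a b
    calc ∫ s in (-τ)..τ, (∫ r₀ in a..b, G (s + r₀)) ≤ ∫ _s in (-τ)..τ, ∫ r' in Icc (a - τ) (b + τ), G r' :=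
          intervalIntegral.integral_mono_on (by linarith) (hc3.intervalIntegrable _ _) (by simp) e3
      _ = 2 * τ * ∫ r' in Icc (a - τ) (b + τ), G r' := by
          rw [intervalIntegral.integral_const, smul_eq_mul]
          ring

end Pool.Agent.Helper54.LP
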