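import Pool.Agent.Helper75.TW.A3
import Pool.Agent.Helper92.LA.A3

/-!
# The sum `LS` at the radius `r` is bounded by the moments (of order 20 and 12) over the centres at every radius `r'` with `|r - r'| ≤ 1 / N`
-/

open MeasureTheory Real Set Filter Topology

set_option autoImplicit false

namespace Pool.Agent.Helper54.LP

open Pool.Agent.Helper22.AE
open Pool.Agent.Helper92.GC
open Pool.Agent.Helper92.DT
open Pool.Agent.Helper92.LA (lf Fb HL WL)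
open Pool.Agent.Helper22.LP (Fr fv fk fdet nr tr hom LS nr_eq)

private theorem ls_shift54 (f : Fr) (h : ℝ × ℝ → ℝ) (w : ℝ × ℝ → ℂ) (i N : ℕ) (r r' : ℝ) (c : ℝ × ℝ) :
    LS f h w i N r c = tp (sqa N) (fun k => (((N : ℝ) / nr (fk f k) : ℝ) : ℂ) ^ i * w (fk f k) *
        ee ((r - r') * h (fk f k)) * ee (r' * h (fk f k))) c := by
  unfold LS tp
  refine Finset.sum_congr rfl fun k _ => ?_
  have h4 : ee (r * h (fk f k) + dt k c) = ee ((r - r') * h (fk f k)) * ee (r' * h (fk f k)) * ee (dt k c) := by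
    rw [← ee_add, ← ee_add]
    congr 1
    ring
  rw [h4]
  ring

/-- order 20 -/
theorem ls_pt20 {M B : ℝ} (hM : 1 ≤ M) : ∃ C : ℝ, 0 < C ∧ ∀ f : Fr, Fb M f → ∀ h : ℝ × ℝ → ℝ, HL B h → ∀ w : ℝ × ℝ → ℂ, WL B w →
    ∀ i : ℕ, i ≤ 2 → ∀ N : ℕ, 1 ≤ N → ∀ r r' : ℝ, |r - r'| ≤ 1 / N → ∀ c : ℝ × ℝ,
      ‖LS f h w i N r c‖ ^ 20 ≤ C * (N : ℝ) ^ 2 * Pool.Agent.Helper75.TW.m20 (sqa N) (fun k => ee (r' * h (fk f k))) := by
  obtain ⟨C, hC, hmul⟩ := Pool.Agent.Helper75.TW.ls_mul (M := M) (B := B) hM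
  refine ⟨441 * 4 * C ^ 20, by positivity, ?_⟩
  intro f hf h hh w hw i hi N hN r r' hs c
  have hNr : (1 : ℝ) ≤ N := by exact_mod_cast hN
  have hcard : ((Pool.Agent.Helper75.TW.SP (sqa N) 10).card : ℝ) ≤ 441 * (4 * (N : ℝ) ^ 2) := by
    have h1 := Pool.Agent.Helper75.TW.sp10_card (S := sqa N) (X := 2 * N) (Y := 2 * N) (by linarith) (by linarith) (by
      classical
      intro p hp
      unfold sqa at hp
      obtain ⟨-, -, h2, h3⟩ := Finset.mem_filter.1 hp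
      constructor
      · exact_mod_cast h2.le
      · exact_mod_cast h3.le)
    refine h1.trans (le_of_eq ?_)
    ring
  have h2 := (hmul f hf h hh w hw i hi N hN (r - r') hs).2 (fun k => ee (r' * h (fk f k)))
  rw [ls_shift54 f h w i N r r' c]
  refine (Pool.Agent.Helper75.TW.nik20 _ _ _).trans ?_
  calc ((Pool.Agent.Helper75.TW.SP (sqa N) 10).card : ℝ) * Pool.Agent.Helper75.TW.m20 (sqa N) (fun k => (((N : ℝ) / nr (fk f k) : ℝ) : ℂ) ^ i * w (fk f k) *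
      ee ((r - r') * h (fk f k)) * ee (r' * h (fk f k))) ≤ 441 * (4 * (N : ℝ) ^ 2) * (C ^ 20 *
        Pool.Agent.Helper75.TW.m20 (sqa N) (fun k => ee (r' * h (fk f k)))) :=
        mul_le_mul hcard h2 (Pool.Agent.Helper75.TW.m20_nonneg _ _) (by positivity)
    _ = _ := by ring

private theorem s6_card54 {S : Finset (ℤ × ℤ)} {X Y : ℝ} (hX : 1 ≤ X) (hY : 1 ≤ Y)
    (h : ∀ p ∈ S, |(p.1 : ℝ)| ≤ X ∧ |(p.2 : ℝ)| ≤ Y) : ((S6 S).card : ℝ) ≤ 169 * (X * Y) := by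
  have h3 : ∀ l ∈ S3 S, |(l.1 : ℝ)| ≤ 3 * X ∧ |(l.2 : ℝ)| ≤ 3 * Y := by
    intro l hl
    unfold S3 at hl
    rw [Finset.mem_image] at hl
    obtain ⟨k, hk, rfl⟩ := hl
    rw [Finset.mem_product, Finset.mem_product] at hk
    obtain ⟨hk1, hk2, hk3⟩ := hk
    have a1 := h _ hk1
    have a2 := h _ hk2
    have a3 := h _ hk3
    simp only [abs_le] at a1 a2 a3 ⊢
    simp only [Prod.fst_add, Prod.snd_add]
    push_cast
    refine ⟨⟨?_, ?_⟩, ?_, ?_⟩ <;> linarith [a1.1.1, a1.1.2, a1.2.1, a1.2.2, a2.1.1, a2.1.2, a2.2.1, a2.2.2,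
      a3.1.1, a3.1.2, a3.2.1, a3.2.2]
  have key : ∀ (Z : ℝ) (a b : ℤ), |(a : ℝ)| ≤ 3 * Z → |(b : ℝ)| ≤ 3 * Z →
      a + b ∈ Finset.Icc (-⌊6 * Z⌋) ⌊6 * Z⌋ := by
    intro Z a b ha hb
    rw [abs_le] at ha hb
    rw [Finset.mem_Icc]
    constructor
    · rw [neg_le, Int.le_floor]
      push_cast
      linarith [ha.1, hb.1]
    · rw [Int.le_floor]
      push_cast
      linarith [ha.2, hb.2]
  have hsub : S6 S ⊆ Finset.Icc (-⌊6 * X⌋) ⌊6 * X⌋ ×ˢ Finset.Icc (-⌊6 * Y⌋) ⌊6 * Y⌋ := by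
    intro l hl
    unfold S6 at hl
    rw [Finset.mem_image] at hl
    obtain ⟨k, hk, rfl⟩ := hl
    rw [Finset.mem_product] at hk
    obtain ⟨hk1, hk2⟩ := hk
    rw [Finset.mem_product]
    exact ⟨key X _ _ (h3 _ hk1).1 (h3 _ hk2).1, key Y _ _ (h3 _ hk1).2 (h3 _ hk2).2⟩
  have hcard : ∀ Z : ℝ, 1 ≤ Z → ((Finset.Icc (-⌊6 * Z⌋) ⌊6 * Z⌋).card : ℝ) ≤ 13 * Z := by
    intro Z hZ
    rw [Int.card_Icc]
    have h0 : 0 ≤ ⌊6 * Z⌋ := Int.floor_nonneg.mpr (by linarith)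
    have h1 : ((⌊6 * Z⌋ + 1 - -⌊6 * Z⌋).toNat : ℤ) = ⌊6 * Z⌋ + 1 - -⌊6 * Z⌋ := Int.toNat_of_nonneg (by linarith)
    have h3 := Int.floor_le (6 * Z)
    have h4 : (((⌊6 * Z⌋ + 1 - -⌊6 * Z⌋).toNat : ℕ) : ℝ) = 2 * (⌊6 * Z⌋ : ℝ) + 1 := by
      have h5 : (((⌊6 * Z⌋ + 1 - -⌊6 * Z⌋).toNat : ℕ) : ℝ) = (((⌊6 * Z⌋ + 1 - -⌊6 * Z⌋).toNat : ℤ) : ℝ) := by
        push_cast
        rfl
      rw [h5, h1]
      push_cast
      ring
    rw [h4]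
    linarith
  have h1 := Finset.card_le_card hsub
  rw [Finset.card_product] at h1
  have h2 : ((S6 S).card : ℝ) ≤ ((Finset.Icc (-⌊6 * X⌋) ⌊6 * X⌋).card : ℝ) * ((Finset.Icc (-⌊6 * Y⌋) ⌊6 * Y⌋).card : ℝ) := by
    exact_mod_cast h1
  have h3 := mul_le_mul (hcard X hX) (hcard Y hY) (Nat.cast_nonneg _) (by linarith)
  linarith

/-- order 12 -/
theorem ls_pt12 {M B : ℝ} (hM : 1 ≤ M) : ∃ C : ℝ, 0 < C ∧ ∀ f : Fr, Fb M f → ∀ h : ℝ × ℝ → ℝ, HL B h → ∀ w : ℝ × ℝ → ℂ, WL B w →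
    ∀ i : ℕ, i ≤ 2 → ∀ N : ℕ, 1 ≤ N → ∀ r r' : ℝ, |r - r'| ≤ 1 / N → ∀ c : ℝ × ℝ,
      ‖LS f h w i N r c‖ ^ 12 ≤ C * (N : ℝ) ^ 2 * m12 (sqa N) (fun k => ee (r' * h (fk f k))) := by
  obtain ⟨C, hC, hmul⟩ := Pool.Agent.Helper92.LA.ls_mul (M := M) (B := B) hM
  refine ⟨169 * 4 * C ^ 12, by positivity, ?_⟩
  intro f hf h hh w hw i hi N hN r r' hs c
  have hNr : (1 : ℝ) ≤ N := by exact_mod_cast hN
  have hcard : ((S6 (sqa N)).card : ℝ) ≤ 169 * (4 * (N : ℝ) ^ 2) := by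
    have h1 := s6_card54 (S := sqa N) (X := 2 * N) (Y := 2 * N) (by linarith) (by linarith) (by
      classical
      intro p hp
      unfold sqa at hp
      obtain ⟨-, -, h2, h3⟩ := Finset.mem_filter.1 hp
      constructor
      · exact_mod_cast h2.le
      · exact_mod_cast h3.le)
    refine h1.trans (le_of_eq ?_)
    ring
  have h2 := (hmul f hf h hh w hw i hi N hN (r - r') hs).2 (fun k => ee (r' * h (fk f k)))
  rw [ls_shift54 f h w i N r r' c]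
  refine (nik12 _ _ _).trans ?_
  calc ((S6 (sqa N)).card : ℝ) * m12 (sqa N) (fun k => (((N : ℝ) / nr (fk f k) : ℝ) : ℂ) ^ i * w (fk f k) *
      ee ((r - r') * h (fk f k)) * ee (r' * h (fk f k))) ≤ 169 * (4 * (N : ℝ) ^ 2) * (C ^ 12 *
        m12 (sqa N) (fun k => ee (r' * h (fk f k)))) :=
        mul_le_mul hcard h2 (m12_nonneg _ _) (by positivity)
    _ = _ := by ring

end Pool.Agent.Helper54.LP
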