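import Pool.Agent.Helper75.LM.Defs
import Pool.Agent.Helper54.LP.Pt

/-!
# Project LM, block S1: the two moments (order 20 and order 12)
-/

open MeasureTheory Real Set Filter Topology Metric

set_option autoImplicit false

namespace Pool.Agent.Helper54.LP

open Pool.Agent.Helper22.AE
open Pool.Agent.Helper92.GC (dt tp sqa)
open Pool.Agent.Helper92.DT (m12 m12_nonneg)
open Pool.Agent.Helper75.TW (m20 J20 m20_nonneg m20_cont_coef)
open Pool.Agent.Helper75.LM
open Pool.Agent.Helper92.LA (JJ Fb HL WL m12_cont_coef)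
open Pool.Agent.Helper22.LP (Fr fk fdet hom LS wr Hf)

/-- from a pointwise bound with the majorant `G` at all points near `r` to the integral of `G` over a window -/
private theorem win_of_pt54 {A C N τ r₀ r : ℝ} {G : ℝ → ℝ} (hG : Continuous G) (h0 : ∀ r, 0 ≤ G r) (hN : 1 ≤ N) (hτ : 0 < τ) (hC : 0 ≤ C)
    (hr : |r - r₀| ≤ τ) (h : ∀ r', |r - r'| ≤ 1 / N → A ≤ C * N ^ 2 * G r') :
    A ≤ C * N ^ 2 * (N + 1 / τ) * ∫ r' in Icc (r₀ - 2 * τ) (r₀ + 2 * τ), G r' := by
  have hN0 : 0 < N := by linarith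
  obtain ⟨s, hs⟩ : ∃ s : ℝ, s = min (1 / N) τ := ⟨_, rfl⟩
  have hs0 : 0 < s := by
    rw [hs]
    exact lt_min (by positivity) hτ
  have hsN : s ≤ 1 / N := by
    rw [hs]
    exact min_le_left _ _
  have hsτ : s ≤ τ := by
    rw [hs]
    exact min_le_right _ _
  have hr' := abs_le.1 hr
  have h1 : ∀ r' ∈ Icc r (r + s), A ≤ C * N ^ 2 * G r' := by
    intro r' hr1
    refine h r' ?_
    rw [abs_le]
    constructor
    · linarith [hr1.2]
    · have := hr1.1
      have h2 : 0 ≤ 1 / N := by positivity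
      linarith
  have hvol : (volume (Icc r (r + s))).toReal = s := by
    rw [Real.volume_Icc, ENNReal.toReal_ofReal (by linarith)]
    ring
  have hJ : ∫ r' in Icc r (r + s), G r' ≤ ∫ r' in Icc (r₀ - 2 * τ) (r₀ + 2 * τ), G r' := by
    refine setIntegral_mono_set ?_ (Eventually.of_forall h0) (Eventually.of_forall (Icc_subset_Icc (by linarith) (by linarith)))
    exact hG.continuousOn.integrableOn_compact isCompact_Icc
  have hI0 : 0 ≤ ∫ r' in Icc (r₀ - 2 * τ) (r₀ + 2 * τ), G r' := integral_nonneg fun _ => h0 _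
  have h6 : A * s ≤ C * N ^ 2 * ∫ r' in Icc r (r + s), G r' := by
    have h7 : ∫ _r' in Icc r (r + s), A ≤ ∫ r' in Icc r (r + s), C * N ^ 2 * G r' := by
      refine setIntegral_mono_on ?_ ?_ measurableSet_Icc h1
      · exact continuousOn_const.integrableOn_compact isCompact_Icc
      · exact (continuous_const.mul hG).continuousOn.integrableOn_compact isCompact_Icc
    rw [integral_const_mul, setIntegral_const, Measure.real, hvol, smul_eq_mul] at h7
    linarith
  have h8 : A * s ≤ C * N ^ 2 * ∫ r' in Icc (r₀ - 2 * τ) (r₀ + 2 * τ), G r' :=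
    h6.trans (mul_le_mul_of_nonneg_left hJ (by positivity))
  have hs1 : 1 / s ≤ N + 1 / τ := by
    rw [hs]
    rcases min_choice (1 / N) τ with h | h <;> rw [h]
    · rw [one_div_one_div]
      have : 0 ≤ 1 / τ := by positivity
      linarith
    · linarith
  calc A = A * s * (1 / s) := by
        field_simp
    _ ≤ C * N ^ 2 * (∫ r' in Icc (r₀ - 2 * τ) (r₀ + 2 * τ), G r') * (1 / s) := mul_le_mul_of_nonneg_right h8 (by positivity)
    _ ≤ C * N ^ 2 * (∫ r' in Icc (r₀ - 2 * τ) (r₀ + 2 * τ), G r') * (N + 1 / τ) := mul_le_mul_of_nonneg_left hs1 (by positivity)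
    _ = C * N ^ 2 * (N + 1 / τ) * ∫ r' in Icc (r₀ - 2 * τ) (r₀ + 2 * τ), G r' := by ring

private theorem cont_coef54 (f : Fr) {h : ℝ → ℝ × ℝ → ℝ} (hc : Continuous fun q : ℝ × (ℝ × ℝ) => h q.1 q.2) (k : ℤ × ℤ) :
    Continuous fun q : ℝ × ℝ => ee (q.2 * h q.1 (fk f k)) :=
  ee_cont.comp (continuous_snd.mul (hc.comp (continuous_fst.prodMk continuous_const)))

/-- S1, order 20 -/
theorem md_20 : Md d20 J20 20 where
  eq := fun _ _ _ _ => rfl
  nonneg := fun _ _ _ _ => m20_nonneg _ _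
  cont := fun f h hc N => m20_cont_coef (sqa N) (fun (q : ℝ × ℝ) k => ee (q.2 * h q.1 (fk f k))) fun k _ => cont_coef54 f hc k
  glob := fun M B hM => Pool.Agent.Helper75.TW.ls_le (M := M) (B := B) hM
  win := fun M B hM => by
    obtain ⟨C, hC, hl⟩ := ls_pt20 (M := M) (B := B) hM
    refine ⟨C, hC, fun f hf h hh w hw i hi N hN τ hτ r₀ r hr c => ?_⟩
    have hNr : (1 : ℝ) ≤ N := by exact_mod_cast hN
    have hG : Continuous fun r' : ℝ => d20 f h r' N := by
      refine m20_cont_coef (sqa N) (fun (r : ℝ) k => ee (r * h (fk f k))) fun k _ => ?_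
      exact ee_cont.comp (continuous_id.mul continuous_const)
    exact win_of_pt54 hG (fun _ => m20_nonneg _ _) hNr hτ hC.le hr fun r' hr' => hl f hf h hh w hw i hi N hN r r' hr' c

/-- S1, order 12 -/
theorem md_12 : Md d12 JJ 12 where
  eq := fun _ _ _ _ => rfl
  nonneg := fun _ _ _ _ => m12_nonneg _ _
  cont := fun f h hc N => m12_cont_coef (sqa N) (fun (q : ℝ × ℝ) k => ee (q.2 * h q.1 (fk f k))) fun k _ => cont_coef54 f hc k
  glob := fun M B hM => Pool.Agent.Helper92.LA.ls_le (M := M) (B := B) hM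
  win := fun M B hM => by
    obtain ⟨C, hC, hl⟩ := ls_pt12 (M := M) (B := B) hM
    refine ⟨C, hC, fun f hf h hh w hw i hi N hN τ hτ r₀ r hr c => ?_⟩
    have hNr : (1 : ℝ) ≤ N := by exact_mod_cast hN
    have hG : Continuous fun r' : ℝ => d12 f h r' N := by
      refine m12_cont_coef (sqa N) (fun (r : ℝ) k => ee (r * h (fk f k))) fun k _ => ?_
      exact ee_cont.comp (continuous_id.mul continuous_const)
    exact win_of_pt54 hG (fun _ => m12_nonneg _ _) hNr hτ hC.le hr fun r' hr' => hl f hf h hh w hw i hi N hN r r' hr' c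

end Pool.Agent.Helper54.LP
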